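import Mathlib
import Pool.Agent.Q201.Dyadic

set_option autoImplicit false

/-!
# A substructure-closed class whose counting function is not MC-finite

Let `F k` be the structure on `ℤ/2^k` with the relations
`S(x,y,z,w) ↔ ord(z-w) = 2 ord(x-y)` and `U(x,y) ↔ ord(x-y) = 2^k`.
The structures `F k` form an antichain under embeddings.  The number `L k` of the labelled copies
of `F k` on a set with `2^k` elements is odd: the translations of `ℤ/2^k` form a 2-group acting on
the labelled copies on this set, and `F k` is the only copy which is invariant.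
For a set `K` of numbers let `C K` be the class of all structures which embed in some `F j` and are
not isomorphic to `F k` for `k ∉ K`.  It is closed under substructures, and its counting function
modulo 2 determines `K`.  As there are only countably many sequences modulo 2 with a linear
recurrence, for some `K` the counting function is not MC-finite.
-/

namespace Pool.Agent.Results.MP_904b92_lc.NotMCFinite

/-- A finite relational vocabulary: a finite set of relation symbols, each with an arity which is
at least one. -/
structure Vocab where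
  /-- the relation symbols -/
  Sym : Type
  fin : Finite Sym
  /-- the arities -/
  ar : Sym → ℕ
  pos : ∀ s, 1 ≤ ar s

/-- The structures with universe `X`. -/
def Str (τ : Vocab) (X : Type) : Type := ∀ s : τ.Sym, (Fin (τ.ar s) → X) → Prop

/-- The structure induced on `X` by a map from `X` to the universe of a structure. -/
def Str.comap {τ : Vocab} {X Y : Type} (f : X → Y) (R : Str τ Y) : Str τ X :=
  fun s v => R s (f ∘ v)

/-- A class of finite structures closed under isomorphism and under induced substructures (on
nonempty sets), given by its members with the universes `Fin n`: if a structure in the class is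
pulled back along an injective map from a nonempty `Fin m`, the result is in the class. -/
def ClosedUnderSubstructures {τ : Vocab} (C : ∀ n, Set (Str τ (Fin n))) : Prop :=
  ∀ (m n : ℕ) (f : Fin m → Fin n), 1 ≤ m → Function.Injective f → ∀ R ∈ C n, R.comap f ∈ C m

/-- The number of the members of the class with universe `Fin n`. -/
noncomputable def Sp {τ : Vocab} (C : ∀ n, Set (Str τ (Fin n))) (n : ℕ) : ℕ := (C n).ncard

/-- The linear recurrence modulo `m` in the definition of MC-finiteness. -/
def RecurrenceMod (m : ℕ) (s : ℕ → ℤ) : Prop :=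
  ∃ (r p : ℕ) (α : Fin p → ℤ), 1 ≤ r ∧ 1 ≤ p ∧
    ∀ n, r ≤ n → s (n + p) ≡ ∑ i : Fin p, α i * s (n + i) [ZMOD m]

/-- MC-finite sequences. -/
def MCFinite (s : ℕ → ℤ) : Prop := ∀ m : ℕ, 1 ≤ m → RecurrenceMod m s

/-- The symbols of the vocabulary of the example. -/
inductive Sy
  | S
  | U

/-- The vocabulary of the example: a 4-ary and a binary relation symbol. -/
def τ₀ : Vocab where
  Sym := Sy
  fin := Finite.of_injective (fun s : Sy => match s with | .S => true | .U => false) (by
    intro a b h
    cases a <;> cases b <;> simp_all)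
  ar := fun s => match s with
    | .S => 4
    | .U => 2
  pos := fun s => by cases s <;> simp

open Q201.Dy

/-- The structure on `ℤ/2^k`. -/
def F (k : ℕ) : Str τ₀ (G k) := fun s => match s with
  | .S => fun v : Fin 4 → G k => addOrderOf (v 2 - v 3) = 2 * addOrderOf (v 0 - v 1)
  | .U => fun v : Fin 2 → G k => addOrderOf (v 0 - v 1) = 2 ^ k

/-- the class given by the set `K` -/
def Cl (K : Set ℕ) (n : ℕ) : Set (Str τ₀ (Fin n)) :=
  {R | (∃ (j : ℕ) (f : Fin n → G j), Function.Injective f ∧ R = (F j).comap f) ∧
    ∀ k, k ∉ K → ¬ ∃ f : Fin n ≃ G k, R = (F k).comap f}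

theorem comap_comap {τ : Vocab} {X Y Z : Type} (f : X → Y) (g : Y → Z) (R : Str τ Z) :
    (R.comap g).comap f = R.comap (g ∘ f) := rfl

theorem F_antichain {k j : ℕ} (f : G k → G j) (h : F k = (F j).comap f) : k = j := by
  apply antichain f
  · intro x y z w
    have h1 := congrFun (congrFun h Sy.S) ![x, y, z, w]
    exact iff_of_eq h1
  · intro x y
    have h1 := congrFun (congrFun h Sy.U) ![x, y]
    exact iff_of_eq h1

theorem card_eq_of_equiv {n k : ℕ} (f : Fin n ≃ G k) : n = 2 ^ k := by
  have := Nat.card_congr f
  rwa [card_G, Nat.card_eq_fintype_card, Fintype.card_fin] at this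

theorem le_of_injective {n k : ℕ} {f : Fin n → G k} (hf : Function.Injective f) : n ≤ 2 ^ k := by
  have := Nat.card_le_card_of_injective f hf
  rwa [card_G, Nat.card_eq_fintype_card, Fintype.card_fin] at this

theorem closed (K : Set ℕ) : ClosedUnderSubstructures (Cl K) := by
  rintro m n g - hg R ⟨⟨j, f, hf, rfl⟩, hR⟩
  refine ⟨⟨j, f ∘ g, hf.comp hg, rfl⟩, ?_⟩
  rintro k hk ⟨e, he⟩
  -- `F k` embeds in `F j`
  have h1 : F k = (F j).comap (f ∘ g ∘ e.symm) := by
    have h2 : (F k) = ((F k).comap e).comap e.symm := by
      rw [comap_comap, e.self_comp_symm]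
      rfl
    rw [h2, ← he]
    rfl
  have hkj : k = j := F_antichain _ h1
  subst hkj
  have hm : m = 2 ^ k := card_eq_of_equiv e
  have hn : n ≤ 2 ^ k := le_of_injective hf
  have hmn : m ≤ n := by
    have := Nat.card_le_card_of_injective g hg
    simpa using this
  have hmn' : m = n := by omega
  subst hmn'
  -- `g` is a bijection
  have hgb : Function.Bijective g := Finite.injective_iff_bijective.1 hg
  refine hR k hk ⟨(Equiv.ofBijective g hgb).symm.trans e, ?_⟩
  have h3 : ((F k).comap f) = (((F k).comap f).comap g).comap (Equiv.ofBijective g hgb).symm := by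
    rw [comap_comap]
    have : g ∘ (Equiv.ofBijective g hgb).symm = id := by
      funext x
      exact (Equiv.ofBijective g hgb).apply_symm_apply x
    rw [this]
    rfl
  rw [h3, he]
  rfl

/-! ### The number of labelled copies is odd -/

/-- the labelled copies of `F k` with the universe `ℤ/2^k` -/
def Lab (k : ℕ) : Type := {R : Str τ₀ (G k) // ∃ f : G k ≃ G k, R = (F k).comap f}

/-- the translations act on the labelled copies -/
instance (k : ℕ) : MulAction (Multiplicative (G k)) (Lab k) where
  smul g R := ⟨R.1.comap (fun x => x + g.toAdd), by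
    obtain ⟨f, hf⟩ := R.2
    exact ⟨(Equiv.addRight g.toAdd).trans f, by rw [hf]; rfl⟩⟩
  one_smul R := by
    apply Subtype.ext
    change R.1.comap (fun x => x + 0) = R.1
    simp only [add_zero]
    rfl
  mul_smul g h R := by
    apply Subtype.ext
    change R.1.comap (fun x => x + (g.toAdd + h.toAdd)) =
      (R.1.comap (fun x => x + h.toAdd)).comap (fun x => x + g.toAdd)
    rw [comap_comap]
    congr 1
    funext x
    simp [add_assoc]

instance finite_str (X : Type) [Finite X] : Finite (Str τ₀ X) := by
  unfold Str
  have := τ₀.fin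
  infer_instance

instance (k : ℕ) : Finite (Lab k) := by
  unfold Lab
  infer_instance

theorem F_invariant (k : ℕ) (g : G k) : (F k).comap (fun x => x + g) = F k := by
  funext s v
  cases s with
  | S =>
    change (addOrderOf ((v (2 : Fin 4) + g) - (v (3 : Fin 4) + g)) =
      2 * addOrderOf ((v (0 : Fin 4) + g) - (v (1 : Fin 4) + g))) = _
    rw [add_sub_add_right_eq_sub, add_sub_add_right_eq_sub]
    rfl
  | U =>
    change (addOrderOf ((v (0 : Fin 2) + g) - (v (1 : Fin 2) + g)) = 2 ^ k) = _
    rw [add_sub_add_right_eq_sub]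
    rfl

theorem fixed_unique (k : ℕ) (R : Lab k) (hR : ∀ g : Multiplicative (G k), g • R = R) :
    R.1 = F k := by
  obtain ⟨R, f, rfl⟩ := R
  have h1 : ∀ g : G k, ((F k).comap f).comap (fun x => x + g) = (F k).comap f := by
    intro g
    exact congrArg Subtype.val (hR (Multiplicative.ofAdd g))
  have h2 := unique f (by
    intro g x y z w h
    have h3 := congrFun (congrFun (h1 g) Sy.S) ![x, y, z, w]
    exact (iff_of_eq h3).2 h)
  funext s v
  cases s with
  | S =>
    change (addOrderOf (f (v (2 : Fin 4)) - f (v (3 : Fin 4))) =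
      2 * addOrderOf (f (v (0 : Fin 4)) - f (v (1 : Fin 4)))) = _
    rw [h2, h2]
    rfl
  | U =>
    change (addOrderOf (f (v (0 : Fin 2)) - f (v (1 : Fin 2))) = 2 ^ k) = _
    rw [h2]
    rfl

theorem odd_lab (k : ℕ) : Nat.card (Lab k) % 2 = 1 := by
  have hp : IsPGroup 2 (Multiplicative (G k)) := IsPGroup.of_card (n := k) (card_G k)
  have h1 := hp.card_modEq_card_fixedPoints (Lab k)
  have h2 : Nat.card (MulAction.fixedPoints (Multiplicative (G k)) (Lab k)) = 1 := by
    rw [Nat.card_eq_one_iff_unique]
    constructor
    · constructor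
      intro a b
      apply Subtype.ext
      apply Subtype.ext
      rw [fixed_unique k a.1 a.2, fixed_unique k b.1 b.2]
    · refine ⟨⟨⟨F k, Equiv.refl _, rfl⟩, ?_⟩⟩
      intro g
      apply Subtype.ext
      exact F_invariant k g.toAdd
  rw [h2] at h1
  exact h1

/-- the labelled copies with the universe `Fin (2^k)` -/
def Iso (k : ℕ) : Set (Str τ₀ (Fin (2 ^ k))) := {R | ∃ f : Fin (2 ^ k) ≃ G k, R = (F k).comap f}

theorem odd_iso (k : ℕ) : (Iso k).ncard % 2 = 1 := by
  have e₀ : Fin (2 ^ k) ≃ G k :=
    Fintype.equivOfCardEq (by rw [Fintype.card_fin, ZMod.card])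
  have h1 : Nat.card (Iso k) = Nat.card (Lab k) := by
    refine Nat.card_congr ⟨fun R => ⟨R.1.comap e₀.symm, ?_⟩, fun R => ⟨R.1.comap e₀, ?_⟩, ?_, ?_⟩
    · obtain ⟨f, hf⟩ := R.2
      exact ⟨e₀.symm.trans f, by rw [hf]; rfl⟩
    · obtain ⟨f, hf⟩ := R.2
      exact ⟨e₀.trans f, by rw [hf]; rfl⟩
    · intro R
      apply Subtype.ext
      change (R.1.comap e₀.symm).comap e₀ = R.1
      rw [comap_comap, e₀.symm_comp_self]
      rfl
    · intro R
      apply Subtype.ext
      change (R.1.comap e₀).comap e₀.symm = R.1
      rw [comap_comap, e₀.self_comp_symm]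
      rfl
  rw [← Nat.card_coe_set_eq, h1]
  exact odd_lab k

/-- all structures which embed in some `F j` -/
def All (n : ℕ) : Set (Str τ₀ (Fin n)) :=
  {R | ∃ (j : ℕ) (f : Fin n → G j), Function.Injective f ∧ R = (F j).comap f}

theorem iso_sub (k : ℕ) : Iso k ⊆ All (2 ^ k) := by
  rintro R ⟨f, rfl⟩
  exact ⟨k, f, f.injective, rfl⟩

theorem sp_mem {K : Set ℕ} {k : ℕ} (hk : k ∈ K) : Sp (Cl K) (2 ^ k) = (All (2 ^ k)).ncard := by
  unfold Sp
  congr 1
  ext R
  constructor
  · exact fun h => h.1
  · intro h
    refine ⟨h, ?_⟩
    rintro i hi ⟨f, -⟩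
    have := Nat.pow_right_injective le_rfl (card_eq_of_equiv f)
    subst this
    exact hi hk

theorem sp_not_mem {K : Set ℕ} {k : ℕ} (hk : k ∉ K) :
    Sp (Cl K) (2 ^ k) + (Iso k).ncard = (All (2 ^ k)).ncard := by
  have h1 : Cl K (2 ^ k) = All (2 ^ k) \ Iso k := by
    ext R
    constructor
    · intro h
      exact ⟨h.1, h.2 k hk⟩
    · rintro ⟨h, h'⟩
      refine ⟨h, ?_⟩
      rintro i hi ⟨f, hf⟩
      have := Nat.pow_right_injective le_rfl (card_eq_of_equiv f)
      subst this
      exact h' ⟨f, hf⟩
  unfold Sp
  rw [h1]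
  exact Set.ncard_sdiff_add_ncard_of_subset (iso_sub k)

/-- The parity of the counting function determines `K`. -/
theorem parity_injective {K K' : Set ℕ} (h : ∀ n, Sp (Cl K) n % 2 = Sp (Cl K') n % 2) : K = K' := by
  have key : ∀ K K' : Set ℕ, (∀ n, Sp (Cl K) n % 2 = Sp (Cl K') n % 2) → K ⊆ K' := by
    intro K K' h k hk
    by_contra hk'
    have h1 := sp_mem hk
    have h2 := sp_not_mem hk'
    have h3 := odd_iso k
    have h4 := h (2 ^ k)
    omega
  exact Set.Subset.antisymm (key K K' h) (key K' K (fun n => (h n).symm))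

/-- Only countably many sequences modulo 2 satisfy a linear recurrence, so some class does not. -/
theorem exists_class : ∃ K : Set ℕ, ¬ RecurrenceMod 2 (fun n => (Sp (Cl K) n : ℤ)) := by
  classical
  by_contra hall
  push Not at hall
  choose r p α hr hp hrec using hall
  -- the data of the recurrence and the initial values
  let code : Set ℕ → ℕ × List ℤ × List ℤ := fun K =>
    (r K, List.ofFn (α K), List.ofFn (fun i : Fin (r K + p K) => ((Sp (Cl K) i : ℤ) % 2)))
  have hinj : Function.Injective code := by
    intro K K' hKK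
    simp only [code, Prod.mk.injEq] at hKK
    obtain ⟨h1, h2, h3⟩ := hKK
    have hpp : p K = p K' := by
      have := congrArg List.length h2
      simpa using this
    have hα : ∀ i (hi : i < p K) (hi' : i < p K'), α K ⟨i, hi⟩ = α K' ⟨i, hi'⟩ := by
      intro i hi hi'
      have h4 : (List.ofFn (α K))[i]? = (List.ofFn (α K'))[i]? := by rw [h2]
      rw [List.getElem?_ofFn, List.getElem?_ofFn, dif_pos hi, dif_pos hi'] at h4
      exact Option.some.inj h4
    have hinit : ∀ i, i < r K + p K → (Sp (Cl K) i : ℤ) % 2 = (Sp (Cl K') i : ℤ) % 2 := by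
      intro i hi
      have h4 : (List.ofFn (fun i : Fin (r K + p K) => ((Sp (Cl K) i : ℤ) % 2)))[i]? =
        (List.ofFn (fun i : Fin (r K' + p K') => ((Sp (Cl K') i : ℤ) % 2)))[i]? := by rw [h3]
      rw [List.getElem?_ofFn, List.getElem?_ofFn, dif_pos hi, dif_pos (by omega)] at h4
      exact Option.some.inj h4
    have hsame : ∀ n, (Sp (Cl K) n : ℤ) % 2 = (Sp (Cl K') n : ℤ) % 2 := by
      intro n
      induction n using Nat.strong_induction_on with
      | _ n ih =>
        by_cases hn : n < r K + p K
        · exact hinit n hn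
        · have hp1 := hp K
          obtain ⟨m, hm, rfl⟩ : ∃ m, r K ≤ m ∧ n = m + p K := ⟨n - p K, by omega, by omega⟩
          have h5 : (Sp (Cl K) (m + p K) : ℤ) ≡
            ∑ i : Fin (p K), α K i * (Sp (Cl K) (m + i) : ℤ) [ZMOD 2] := hrec K m hm
          have h6 : (Sp (Cl K') (m + p K') : ℤ) ≡
            ∑ i : Fin (p K'), α K' i * (Sp (Cl K') (m + i) : ℤ) [ZMOD 2] :=
            hrec K' m (by omega)
          have h7 : ∑ i : Fin (p K), α K i * (Sp (Cl K) (m + i) : ℤ) ≡
              ∑ i : Fin (p K), α K i * (Sp (Cl K') (m + i) : ℤ) [ZMOD 2] := by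
            apply Int.ModEq.sum
            intro i _
            exact Int.ModEq.mul_left _ (ih (m + i) (by omega))
          have h8 : ∑ i : Fin (p K), α K i * (Sp (Cl K') (m + i) : ℤ) =
              ∑ i : Fin (p K'), α K' i * (Sp (Cl K') (m + i) : ℤ) := by
            refine Finset.sum_bij (fun i _ => Fin.cast hpp i) (fun _ _ => Finset.mem_univ _)
              (fun a _ b _ hab => by
                apply Fin.ext
                have := congrArg Fin.val hab
                simpa using this)
              (fun b _ => ⟨Fin.cast hpp.symm b, Finset.mem_univ _, by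
                apply Fin.ext
                simp⟩) (fun i _ => ?_)
            rw [hα i.val i.isLt (by omega)]
            rfl
          rw [h8] at h7
          have h9 := h5.trans (h7.trans h6.symm)
          rw [← hpp] at h9
          exact h9
    apply parity_injective
    intro n
    have := hsame n
    omega
  have hcount : Countable (Set ℕ) := hinj.countable
  obtain ⟨f, hf⟩ := exists_surjective_nat (Set ℕ)
  exact Function.cantor_surjective f hf

/-- There are a finite relational vocabulary and a class of finite structures closed under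
substructures whose counting function is not MC-finite: there is no linear recurrence modulo 2. -/
theorem result : ∃ (τ : Vocab) (C : ∀ n, Set (Str τ (Fin n))), ClosedUnderSubstructures C ∧
    ¬ RecurrenceMod 2 (fun n => (Sp C n : ℤ)) ∧ ¬ MCFinite (fun n => (Sp C n : ℤ)) := by
  obtain ⟨K, hK⟩ := exists_class
  exact ⟨τ₀, Cl K, closed K, hK, fun h => hK (h 2 (by norm_num))⟩

end Pool.Agent.Results.MP_904b92_lc.NotMCFinite
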